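import Pool.Agent.QSN.StmtsB2

/-!
# Squad QSN (MP_dc0713_gt), row SCL: small steps in the direction `u`
-/

set_option autoImplicit false

namespace Pool.Agent.QSN.H66

open Matrix Finset Pool.Agent.QSX Filter Topology

theorem ue_inv_eq {m : ℕ} {y : Matrix (Fin m) (Fin m) ℝ} (hy : SU y) : (ue y)⁻¹ = ue (-y) := by
  apply Units.ext
  rw [ue_inv_val hy, ue_val hy.neg]

/-- the nearest point of the grid of mesh `1 / M` -/
noncomputable def zz (M : ℕ) (x : ℝ) : ℤ := round ((M : ℝ) * x)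

theorem zz_zero (M : ℕ) : zz M 0 = 0 := by
  unfold zz
  rw [mul_zero, round_zero]

theorem zz_abs (M : ℕ) {x : ℝ} (hx : |x| ≤ 1) : |zz M x| ≤ (M : ℤ) := by
  have hM : (0 : ℝ) ≤ M := Nat.cast_nonneg M
  have h1 : |(M : ℝ) * x| ≤ M := by
    rw [abs_mul, abs_of_nonneg hM]
    exact mul_le_of_le_one_right hM hx
  rw [abs_le] at h1 ⊢
  unfold zz
  rw [round_eq]
  constructor
  · rw [Int.le_floor]
    push_cast
    linarith [h1.1]
  · have h2 : ⌊(M : ℝ) * x + 1 / 2⌋ < (M : ℤ) + 1 := by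
      rw [Int.floor_lt]
      push_cast
      linarith [h1.2]
    omega

theorem zz_near (M : ℕ) (hM : 0 < M) (x : ℝ) : |(zz M x : ℝ) / M - x| ≤ 1 / 2 * (M : ℝ)⁻¹ := by
  have hM0 : (0 : ℝ) < M := by exact_mod_cast hM
  have h1 : (zz M x : ℝ) / M - x = -((M : ℝ) * x - round ((M : ℝ) * x)) * (M : ℝ)⁻¹ := by
    unfold zz
    field_simp
    ring
  rw [h1, abs_mul, abs_neg, abs_of_pos (inv_pos.2 hM0)]
  exact mul_le_mul_of_nonneg_right (abs_sub_round _) (inv_pos.2 hM0).le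

theorem exists_lower {D m : ℕ} (w : Fin D → Matrix (Fin m) (Fin m) ℝ)
    (hw : LinearIndependent ℝ w) : ∃ K > (0 : ℝ), ∀ (v : Fin D → ℝ) (r : ℝ), 0 < r →
      (∀ i j, |(∑ k, v k • w k) i j| < r) → ∀ k, |v k| < K * r := by
  let L : (Fin D → ℝ) →ₗ[ℝ] (Fin m → Fin m → ℝ) :=
    { toFun := fun v i j => ∑ k, v k * w k i j
      map_add' := fun v v' => by
        funext i j
        simp only [Pi.add_apply, add_mul, sum_add_distrib]
      map_smul' := fun c v => by
        funext i j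
        simp only [Pi.smul_apply, smul_eq_mul, RingHom.id_apply, mul_sum, mul_assoc] }
  have hL : ∀ (v : Fin D → ℝ) i j, L v i j = (∑ k, v k • w k) i j := by
    intro v i j
    show ∑ k, v k * w k i j = _
    rw [Matrix.sum_apply]
    rfl
  have hker : LinearMap.ker L = ⊥ := by
    rw [LinearMap.ker_eq_bot']
    intro v hv
    rw [Fintype.linearIndependent_iff] at hw
    funext k
    refine hw v ?_ k
    ext i j
    rw [← hL, hv]
    rfl
  obtain ⟨K, hK, hanti⟩ := L.exists_antilipschitzWith hker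
  refine ⟨K, by exact_mod_cast hK, ?_⟩
  intro v r hr hv k
  have h1 : ‖L v‖ < r := by
    rw [pi_norm_lt_iff hr]
    intro i
    rw [pi_norm_lt_iff hr]
    intro j
    rw [Real.norm_eq_abs, hL]
    exact hv i j
  have h2 : ‖v‖ ≤ K * ‖L v‖ := by
    have := hanti.le_mul_dist v 0
    rwa [map_zero, dist_zero_right, dist_zero_right] at this
  have h3 : |v k| ≤ ‖v‖ := by
    rw [← Real.norm_eq_abs]
    exact norm_le_pi_norm v k
  have hK' : (0 : ℝ) < K := by exact_mod_cast hK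
  calc |v k| ≤ ‖v‖ := h3
    _ ≤ K * ‖L v‖ := h2
    _ < K * r := mul_lt_mul_of_pos_left h1 hK'

theorem scl (LGC : LgcStmt) (WKT : WktStmt) (CEN : CenStmt) (LGM : LgmStmt) (BCH : BchStmt) :
    SclStmt := by
  intro X Y hX H A Q j u hu hu0
  obtain ⟨c₀, hc₀, hlin⟩ := Q.lin
  have hR1 : ∀ s, 1 ≤ A.S.R s := A.one_le
  have hMpos : ∀ s, 0 < A.M s := fun s => by
    obtain ⟨k, hk⟩ := A.pow s
    rw [hk]
    positivity
  refine ⟨c₀ / 2, by positivity, ?_⟩
  intro t ht
  -- the integer points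
  set z : ℕ → Fin H.D → ℤ := fun s k => zz (A.M s) (u s k * Real.exp (-(t * A.S.R s))) with hz
  have hx1 : ∀ s k, |u s k * Real.exp (-(t * A.S.R s))| ≤ 1 := by
    intro s k
    have h1 : Real.exp (-(t * A.S.R s)) ≤ 1 := by
      rw [Real.exp_le_one_iff]
      have := mul_nonneg ht (le_trans zero_le_one (hR1 s))
      linarith
    rw [abs_mul, abs_of_pos (Real.exp_pos _)]
    exact mul_le_one₀ (hu s k) (Real.exp_pos _).le h1
  have hzM : ∀ s k, |z s k| ≤ (A.M s : ℤ) := fun s k => zz_abs _ (hx1 s k)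
  have hz0 : ∀ s k, u s k = 0 → z s k = 0 := by
    intro s k h
    show zz (A.M s) (u s k * Real.exp (-(t * A.S.R s))) = 0
    rw [h, zero_mul, zz_zero]
  have hznear : ∀ s k, |(z s k : ℝ) / A.M s - u s k * Real.exp (-(t * A.S.R s))| ≤
      1 / 2 * (A.M s : ℝ)⁻¹ := fun s k => zz_near _ (hMpos s) _
  have hMinv : ∀ c : ℝ, ∀ᶠ s in (A.S.ω : Filter ℕ), (A.M s : ℝ)⁻¹ ≤ Real.exp (-(c * A.S.R s)) := by
    intro c
    filter_upwards [A.big c] with s hs
    rw [Real.exp_neg]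
    exact inv_anti₀ (Real.exp_pos _) hs
  obtain ⟨hgb, hgb'⟩ := Q.good z hzM
  set g : ℕ → UX Y := fun s => (A.χ s (H.gp (A.M s) (Q.n s (z s))))⁻¹ *
    A.χ s (H.gp (A.M s) (Q.n s (z s) + z s)) with hg
  have hgU : ∀ s, UU ((g s : UX Y) : Matrix (Fin Y.m) (Fin Y.m) ℝ) := by
    intro s
    obtain ⟨y, hy, h1⟩ := A.χn s (H.gp (A.M s) (Q.n s (z s)))
    obtain ⟨y', hy', h2⟩ := A.χn s (H.gp (A.M s) (Q.n s (z s) + z s))
    obtain ⟨x, hx, h3⟩ := BCH ℝ Y.m Y.n Y.su Y.lie (-y) (Y.n.neg_mem hy) y' hy'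
    have h4 : g s = ue x := by
      show (A.χ s (H.gp (A.M s) (Q.n s (z s))))⁻¹ * A.χ s (H.gp (A.M s) (Q.n s (z s) + z s)) = _
      rw [h1, h2, ue_inv_eq (Y.su y hy), h3]
    rw [h4, ue_val (Y.su x hx)]
    exact ((LGM ℝ Y.m).1 x (Y.su x hx)).1
  have hTg : ∀ s, Q.T s (z s) = mlog ((g s : UX Y) : Matrix (Fin Y.m) (Fin Y.m) ℝ) :=
    fun s => Q.eq s (z s)
  -- the vectors `ζ`
  set ζ : ℕ → Matrix (Fin X.m) (Fin X.m) ℝ := fun s => ∑ k, ((z s k : ℝ) / A.M s) • H.w k with hζ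
  have hζspan : ∀ s, ζ s ∈ Submodule.span ℝ (hX.e '' {t' | hX.rt t' = hX.rt (hX.top j)}) := by
    intro s
    refine Submodule.sum_mem _ fun k _ => ?_
    by_cases hk : hX.comp (H.l k) = j
    · refine Submodule.smul_mem _ _ ?_
      have h1 := (WKT X hX H k).2.2.1
      rwa [hk] at h1
    · rw [hz0 s k (hu0 k hk s), Int.cast_zero, zero_div, zero_smul]
      exact Submodule.zero_mem _
  have hstep : ∀ s, H.gp (A.M s) (Q.n s (z s) + z s) =
      H.gp (A.M s) (Q.n s (z s)) * ue (ζ s) := by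
    intro s
    have h1 := (CEN X hX H).2.2.1 (fun k => ((Q.n s (z s) k : ℤ) : ℝ) / A.M s)
      (fun k => ((z s k : ℤ) : ℝ) / A.M s)
    have h2 : H.gp (A.M s) (Q.n s (z s) + z s) =
        H.u ((fun k => ((Q.n s (z s) k : ℤ) : ℝ) / A.M s) +
          fun k => ((z s k : ℤ) : ℝ) / A.M s) := by
      unfold Grd.gp
      refine congrArg H.u ?_
      funext k
      show (((Q.n s (z s) + z s) k : ℤ) : ℝ) / A.M s = _
      rw [Pi.add_apply, Int.cast_add, add_div]
      rfl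
    rw [h2, h1]
    rfl
  have hset : ({a : X.b | ∀ ν ∈ {t' | hX.rt t' = hX.rt (hX.top j)}, -t ≤ hX.rt ν a}) =
      {a : X.b | -t ≤ hX.rt (hX.top j) a} := by
    ext a
    constructor
    · intro h
      exact h (hX.top j) rfl
    · intro h ν hν
      show -t ≤ hX.rt ν a
      have hν' : hX.rt ν = hX.rt (hX.top j) := hν
      rw [hν']
      exact h
  refine ⟨fun s => Q.T s (z s), ?_, ?_, ?_⟩
  · -- the approximation
    intro i l
    have hmod : ∀ᶠ s in (A.S.ω : Filter ℕ), ∀ k ∈ (Finset.univ : Finset (Fin H.D)),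
        |Q.T s (sh (A.M s) k) i l| ≤ Real.exp (c₀ / 2 * A.S.R s) := by
      rw [Filter.eventually_all_finset]
      intro k _
      have h1 := Q.md (fun s => sh (A.M s) k) (fun s k' => ?_) i l (c₀ / 2) (by positivity)
      · exact h1
      · unfold sh
        by_cases hk : k' = k
        · rw [hk, Pi.single_eq_same, Nat.abs_cast]
        · rw [Pi.single_eq_of_ne hk, abs_zero]
          exact Int.natCast_nonneg _
    filter_upwards [hlin, hmod, hMinv (2 * c₀),
      A.S.ev_R (2 / c₀ * Real.log (1 + H.D))] with s h1 h2 h3 h4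
    have h5 : (1 + H.D : ℝ) ≤ Real.exp (c₀ / 2 * A.S.R s) := by
      rw [← Real.log_le_iff_le_exp (by positivity)]
      calc Real.log (1 + H.D) = c₀ / 2 * (2 / c₀ * Real.log (1 + H.D)) := by field_simp
        _ ≤ _ := mul_le_mul_of_nonneg_left h4 (by positivity)
    have h6 := h1 (z s) (hzM s) i l
    have hR0 : 0 ≤ A.S.R s := le_trans zero_le_one (hR1 s)
    have h7 : |∑ k, ((z s k : ℝ) / (A.M s : ℝ)) * Q.T s (sh (A.M s) k) i l -
        Real.exp (-(t * A.S.R s)) * ∑ k, u s k * Q.T s (sh (A.M s) k) i l| ≤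
        H.D * Real.exp (-(c₀ * A.S.R s)) := by
      have h8 : ∑ k, ((z s k : ℝ) / (A.M s : ℝ)) * Q.T s (sh (A.M s) k) i l -
        Real.exp (-(t * A.S.R s)) * ∑ k, u s k * Q.T s (sh (A.M s) k) i l =
        ∑ k, ((z s k : ℝ) / (A.M s : ℝ) - u s k * Real.exp (-(t * A.S.R s))) *
          Q.T s (sh (A.M s) k) i l := by
        rw [mul_sum, ← sum_sub_distrib]
        exact sum_congr rfl fun k _ => by ring
      rw [h8]
      refine (abs_sum_le_sum_abs _ _).trans ?_
      have h9 : ∀ k ∈ (Finset.univ : Finset (Fin H.D)),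
          |((z s k : ℝ) / (A.M s : ℝ) - u s k * Real.exp (-(t * A.S.R s))) *
          Q.T s (sh (A.M s) k) i l| ≤ Real.exp (-(c₀ * A.S.R s)) := by
        intro k hk
        rw [abs_mul]
        have h10 : |(z s k : ℝ) / (A.M s : ℝ) - u s k * Real.exp (-(t * A.S.R s))| ≤
            Real.exp (-(2 * c₀ * A.S.R s)) := by
          refine (hznear s k).trans ?_
          have h11 : 0 ≤ (A.M s : ℝ)⁻¹ := by positivity
          linarith
        calc _ ≤ Real.exp (-(2 * c₀ * A.S.R s)) * Real.exp (c₀ / 2 * A.S.R s) :=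
              mul_le_mul h10 (h2 k hk) (abs_nonneg _) (Real.exp_pos _).le
          _ = Real.exp (-(2 * c₀ * A.S.R s) + c₀ / 2 * A.S.R s) := (Real.exp_add _ _).symm
          _ ≤ Real.exp (-(c₀ * A.S.R s)) := by
              rw [Real.exp_le_exp]
              nlinarith [mul_nonneg hc₀.le hR0]
      refine (sum_le_sum h9).trans (le_of_eq ?_)
      rw [sum_const, card_univ, Fintype.card_fin, nsmul_eq_mul]
    have h8 := abs_add_le (Q.T s (z s) i l - ∑ k, ((z s k : ℝ) / (A.M s : ℝ)) *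
      Q.T s (sh (A.M s) k) i l) (∑ k, ((z s k : ℝ) / (A.M s : ℝ)) * Q.T s (sh (A.M s) k) i l -
        Real.exp (-(t * A.S.R s)) * ∑ k, u s k * Q.T s (sh (A.M s) k) i l)
    rw [sub_add_sub_cancel] at h8
    calc |Q.T s (z s) i l - Real.exp (-(t * A.S.R s)) * ∑ k, u s k * Q.T s (sh (A.M s) k) i l| ≤
        Real.exp (-(c₀ * A.S.R s)) + H.D * Real.exp (-(c₀ * A.S.R s)) := by linarith
      _ = (1 + H.D) * Real.exp (-(c₀ * A.S.R s)) := by ring
      _ ≤ Real.exp (c₀ / 2 * A.S.R s) * Real.exp (-(c₀ * A.S.R s)) :=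
        mul_le_mul_of_nonneg_right h5 (Real.exp_pos _).le
      _ = Real.exp (-(c₀ / 2 * A.S.R s)) := by
        rw [← Real.exp_add]
        ring_nf
  · -- the class condition
    have hK : ∀ᶠ s in (A.S.ω : Filter ℕ),
        ζ s ∈ Submodule.span ℝ (hX.e '' {t' | hX.rt t' = hX.rt (hX.top j)}) ∧
        (∀ i j, |ζ s i j| ≤ (∑ i, ∑ j, ∑ k, 2 * |H.w k i j|) * Real.exp (-(t * A.S.R s))) ∧
        H.gp (A.M s) (Q.n s (z s) + z s) = H.gp (A.M s) (Q.n s (z s)) * ue (ζ s) := by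
      filter_upwards [hMinv t] with s hs
      refine ⟨hζspan s, fun i j => ?_, hstep s⟩
      have h1 : ∀ k, |(z s k : ℝ) / A.M s| ≤ 2 * Real.exp (-(t * A.S.R s)) := by
        intro k
        have h2 := hznear s k
        have h3 : |u s k * Real.exp (-(t * A.S.R s))| ≤ Real.exp (-(t * A.S.R s)) := by
          rw [abs_mul, abs_of_pos (Real.exp_pos _)]
          exact mul_le_of_le_one_left (Real.exp_pos _).le (hu s k)
        have h4 := abs_sub_abs_le_abs_sub ((z s k : ℝ) / A.M s)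
          (u s k * Real.exp (-(t * A.S.R s)))
        have h5 := Real.exp_pos (-(t * A.S.R s))
        linarith
      have h2 : ζ s i j = ∑ k, ((z s k : ℝ) / A.M s) * H.w k i j := by
        show (∑ k, ((z s k : ℝ) / A.M s) • H.w k) i j = _
        rw [Matrix.sum_apply]
        rfl
      rw [h2]
      have h3 : ∑ k, 2 * |H.w k i j| ≤ ∑ i, ∑ j, ∑ k, 2 * |H.w k i j| := by
        have h4 : ∀ i j, 0 ≤ ∑ k, 2 * |H.w k i j| := fun i j =>
          sum_nonneg fun k _ => by positivity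
        calc ∑ k, 2 * |H.w k i j| ≤ ∑ j, ∑ k, 2 * |H.w k i j| :=
              single_le_sum (f := fun j => ∑ k, 2 * |H.w k i j|) (fun j _ => h4 i j) (mem_univ j)
          _ ≤ _ := single_le_sum (f := fun i => ∑ j, ∑ k, 2 * |H.w k i j|)
              (fun i _ => sum_nonneg fun j _ => h4 i j) (mem_univ i)
      calc |∑ k, ((z s k : ℝ) / A.M s) * H.w k i j| ≤
          ∑ k, |((z s k : ℝ) / A.M s) * H.w k i j| := abs_sum_le_sum_abs _ _
        _ ≤ ∑ k, 2 * |H.w k i j| * Real.exp (-(t * A.S.R s)) := by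
            refine sum_le_sum fun k _ => ?_
            rw [abs_mul]
            have := mul_le_mul_of_nonneg_right (h1 k) (abs_nonneg (H.w k i j))
            linarith
        _ = (∑ k, 2 * |H.w k i j|) * Real.exp (-(t * A.S.R s)) := by rw [sum_mul]
        _ ≤ _ := mul_le_mul_of_nonneg_right h3 (Real.exp_pos _).le
    have hnear := A.near (fun s => H.gp (A.M s) (Q.n s (z s)))
      (fun s => H.gp (A.M s) (Q.n s (z s) + z s)) hgb.1 hgb'.1 hgb.2 hgb'.2
      {t' | hX.rt t' = hX.rt (hX.top j)} ζ _ t ht hK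
    rw [hset] at hnear
    have h1 := (LGC A.S X.b Y.m (fun a => A.P a) ({a | ‖a‖ ≤ 1} ∩
      {a | -t ≤ hX.rt (hX.top j) a})).1 (fun s => ((g s : UX Y) : Matrix _ _ ℝ)) hgU hnear
    have h2 : (fun s => Q.T s (z s)) =
        fun s => mlog ((g s : UX Y) : Matrix (Fin Y.m) (Fin Y.m) ℝ) := funext hTg
    rw [h2]
    exact h1
  · -- the lower bound
    intro hone a ha1 ha2 hcl
    have hSU : ∀ s, SU (Q.T s (z s)) := fun s => by
      rw [hTg s]
      exact ((LGM ℝ Y.m).2 _ (hgU s)).1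
    have h1 := (LGC A.S X.b Y.m (fun a => A.P a) {a}).2 (fun s => Q.T s (z s)) hSU hcl
    have h2 : (fun s => mexp (Q.T s (z s))) =
        fun s => ((g s : UX Y) : Matrix (Fin Y.m) (Fin Y.m) ℝ) := by
      funext s
      rw [hTg s]
      exact ((LGM ℝ Y.m).2 _ (hgU s)).2
    rw [h2] at h1
    obtain ⟨K, hK, hlow⟩ := exists_lower H.w H.lin
    refine A.far (fun s => H.gp (A.M s) (Q.n s (z s)))
      (fun s => H.gp (A.M s) (Q.n s (z s) + z s)) hgb.1 hgb'.1 hgb.2 hgb'.2 (hX.top j) ζ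
      (1 / (2 * K)) t (by positivity) ht ?_ a ha1 ha2 h1
    filter_upwards [hone, hMinv t] with s h3 h4
    refine ⟨hζspan s, ?_, hstep s⟩
    obtain ⟨k, hk⟩ := h3
    by_contra hcon
    push Not at hcon
    have hr : 0 < 1 / (2 * K) * Real.exp (-(t * A.S.R s)) := by positivity
    have h5 := hlow (fun k => (z s k : ℝ) / A.M s) _ hr (fun i j => hcon i j) k
    have h6 : K * (1 / (2 * K) * Real.exp (-(t * A.S.R s))) =
        1 / 2 * Real.exp (-(t * A.S.R s)) := by
      field_simp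
    rw [h6] at h5
    have h7 := hznear s k
    have h8 : |u s k * Real.exp (-(t * A.S.R s))| = Real.exp (-(t * A.S.R s)) := by
      rw [abs_mul, hk, one_mul, abs_of_pos (Real.exp_pos _)]
    have h9 := abs_sub_abs_le_abs_sub (u s k * Real.exp (-(t * A.S.R s)))
      ((z s k : ℝ) / A.M s)
    rw [abs_sub_comm] at h9
    rw [h8] at h9
    linarith

end Pool.Agent.QSN.H66
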